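import Pool.Agent.Helper84.Kos.Goals2

set_option autoImplicit false

/-!
# Packet G3: extension of polynomial functions from the kernel of a homomorphism onto the integers
-/

namespace Pool.Agent.Helper75.Kos

open Pool.Agent.Helper84.Kos

section General

variable {N : Type} [Group N]

theorem isPol_zero (d : ℕ) : IsPol d (0 : N → ℚ) := by
  induction d with
  | zero => intro x; rfl
  | succ d ih =>
    intro g
    have : (fun x : N => (0 : N → ℚ) (x * g) - (0 : N → ℚ) x) = 0 := by
      funext x; simp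
    rw [this]; exact ih

theorem isPol_add {d : ℕ} : ∀ {u v : N → ℚ}, IsPol d u → IsPol d v → IsPol d (u + v) := by
  induction d with
  | zero =>
    intro u v hu hv x
    have h1 := hu x
    have h2 := hv x
    simp [h1, h2]
  | succ d ih =>
    intro u v hu hv g
    have h := ih (hu g) (hv g)
    have e : (fun x : N => (u + v) (x * g) - (u + v) x) =
        (fun x => u (x * g) - u x) + (fun x => v (x * g) - v x) := by
      funext x; simp only [Pi.add_apply]; ring
    rw [e]; exact h

theorem isPol_smul {d : ℕ} (c : ℚ) : ∀ {u : N → ℚ}, IsPol d u → IsPol d (c • u) := by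
  induction d with
  | zero =>
    intro u hu x
    have h1 := hu x
    simp [h1]
  | succ d ih =>
    intro u hu g
    have h := ih (hu g)
    have e : (fun x : N => (c • u) (x * g) - (c • u) x) =
        c • (fun x => u (x * g) - u x) := by
      funext x; simp only [Pi.smul_apply, smul_eq_mul]; ring
    rw [e]; exact h

theorem isPol_succ {d : ℕ} : ∀ {u : N → ℚ}, IsPol d u → IsPol (d + 1) u := by
  induction d with
  | zero =>
    intro u hu g x
    have h1 := hu x
    have h2 := hu (x * g)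
    simp [h1, h2]
  | succ d ih =>
    intro u hu g
    exact ih (hu g)

theorem isPol_comp {M : Type} [Group M] (α : M →* N) {d : ℕ} :
    ∀ {u : N → ℚ}, IsPol d u → IsPol d (fun x => u (α x)) := by
  induction d with
  | zero =>
    intro u hu x
    exact hu _
  | succ d ih =>
    intro u hu g
    have h := ih (hu (α g))
    have e : (fun x : M => u (α (x * g)) - u (α x)) =
        (fun x => (fun y => u (y * α g) - u y) (α x)) := by
      funext x; simp only [map_mul]
    show IsPol d (fun x : M => u (α (x * g)) - u (α x))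
    rw [e]; exact h

/-- polynomial functions as a submodule -/
def P (N : Type) [Group N] (d : ℕ) : Submodule ℚ (N → ℚ) where
  carrier := {u | IsPol d u}
  add_mem' := fun h1 h2 => isPol_add h1 h2
  zero_mem' := isPol_zero d
  smul_mem' := fun c _ h => isPol_smul c h

theorem mem_P {d : ℕ} {u : N → ℚ} : u ∈ P N d ↔ IsPol d u := Iff.rfl

/-- difference operator -/
def dl (n : N) : (N → ℚ) →ₗ[ℚ] (N → ℚ) where
  toFun u := fun x => u (x * n) - u x
  map_add' u v := by funext x; simp only [Pi.add_apply]; ring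
  map_smul' c u := by funext x; simp only [Pi.smul_apply, smul_eq_mul, RingHom.id_apply]; ring

theorem dl_apply (n : N) (u : N → ℚ) (x : N) : dl n u x = u (x * n) - u x := rfl

theorem mem_P_succ {d : ℕ} {u : N → ℚ} : u ∈ P N (d + 1) ↔ ∀ n, dl n u ∈ P N d := Iff.rfl

theorem P_le_succ (d : ℕ) : P N d ≤ P N (d + 1) := fun _ h => isPol_succ h

theorem dl_mem {d : ℕ} {u : N → ℚ} (h : u ∈ P N (d + 1)) (n : N) : dl n u ∈ P N d := h n

/-- composition with an automorphism -/
def C (α : MulAut N) : Module.End ℚ (N → ℚ) where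
  toFun u := fun x => u (α x)
  map_add' _ _ := rfl
  map_smul' _ _ := rfl

theorem C_apply (α : MulAut N) (u : N → ℚ) (x : N) : C α u x = u (α x) := rfl

theorem C_mul (α β : MulAut N) : C (α * β) = C β * C α := by
  ext u x; rfl

theorem C_mem {d : ℕ} (α : MulAut N) {u : N → ℚ} (h : u ∈ P N d) : C α u ∈ P N d :=
  isPol_comp (α : N ≃* N).toMonoidHom h

/-- the operator tau - 1 -/
def T (σ : MulAut N) : Module.End ℚ (N → ℚ) := C σ - 1

theorem T_apply (σ : MulAut N) (u : N → ℚ) : T σ u = C σ u - u := rfl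

theorem T_mem {d : ℕ} (σ : MulAut N) {u : N → ℚ} (h : u ∈ P N d) : T σ u ∈ P N d :=
  (P N d).sub_mem (C_mem σ h) h

theorem Tpow_mem {d : ℕ} (σ : MulAut N) (m : ℕ) :
    ∀ {u : N → ℚ}, u ∈ P N d → (T σ ^ m) u ∈ P N d := by
  induction m with
  | zero => intro u h; simpa using h
  | succ m ih =>
    intro u h
    rw [pow_succ, Module.End.mul_apply]
    exact ih (T_mem σ h)

theorem commute_T {σ α : MulAut N} (h : Commute σ α) : Commute (T σ) (C α) := by
  have h1 : Commute (C σ) (C α) := by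
    show C σ * C α = C α * C σ
    rw [← C_mul, ← C_mul, h.eq]
  exact h1.sub_left (Commute.one_left _)

/-- the basic commutation formula -/
theorem dl_T (σ : MulAut N) (n : N) (u : N → ℚ) :
    dl n (T σ u) = T σ (dl n u) + C σ (dl (n⁻¹ * σ n) u) + C σ (dl n (dl (n⁻¹ * σ n) u)) := by
  funext x
  have e : σ x * n * (n⁻¹ * σ n) = σ x * σ n := by group
  simp only [dl_apply, T_apply, C_apply, Pi.add_apply, Pi.sub_apply, map_mul, e]
  ring

/-- the engel operation -/
def eng (σ : MulAut N) (z : N) : N := z⁻¹ * σ z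

theorem engel_step (σ : MulAut N) (k e K : ℕ)
    (hK : ∀ u ∈ P N (e + 1), (T σ ^ K) u ∈ P N e) (l : ℕ) :
    ∀ (m j : ℕ) (n : N), (eng σ)^[j] n = 1 → K + j ≤ m + l → ∀ u ∈ P N (e + 2),
      (T σ ^ m) (dl n ((T σ ^ l) u)) ∈ P N e := by
  induction l with
  | zero =>
    intro m j n hn hm u hu
    obtain ⟨r, rfl⟩ : ∃ r, m = r + K := ⟨m - K, by omega⟩
    rw [pow_add, Module.End.mul_apply, pow_zero, Module.End.one_apply]
    exact Tpow_mem σ r (hK _ (dl_mem hu n))
  | succ l ih =>
    intro m j n hn hm u hu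
    set v := (T σ ^ l) u with hv
    have hvm : v ∈ P N (e + 2) := Tpow_mem σ l hu
    have e1 : (T σ ^ (l + 1)) u = T σ v := by
      rw [pow_succ', Module.End.mul_apply]
    rw [e1, dl_T, map_add, map_add]
    refine (P N e).add_mem ((P N e).add_mem ?_ ?_) ?_
    · have h := ih (m + 1) j n hn (by omega) u hu
      rw [pow_succ, Module.End.mul_apply] at h
      exact h
    · have hc : (T σ ^ m) (C σ (dl (n⁻¹ * σ n) v)) = C σ ((T σ ^ m) (dl (n⁻¹ * σ n) v)) := by
        have := ((commute_T (Commute.refl σ)).pow_left m).eq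
        exact congrArg (fun A : Module.End ℚ (N → ℚ) => A (dl (n⁻¹ * σ n) v)) this
      rw [hc]
      apply C_mem
      rcases j with _ | j
      · have hn1 : n = 1 := hn
        subst hn1
        have : dl ((1 : N)⁻¹ * σ 1) v = 0 := by
          funext x; simp [dl_apply]
        rw [this, map_zero]
        exact (P N e).zero_mem
      · have hn' : (eng σ)^[j] (n⁻¹ * σ n) = 1 := by
          rw [Function.iterate_succ_apply] at hn
          exact hn
        exact ih m j _ hn' (by omega) u hu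
    · apply Tpow_mem
      apply C_mem
      exact dl_mem (dl_mem hvm _) _

theorem unip (σ : MulAut N) (k : ℕ) (hk : ∀ n : N, (eng σ)^[k] n = 1) (d : ℕ) :
    ∃ K : ℕ, ∀ u ∈ P N (d + 1), (T σ ^ K) u ∈ P N d := by
  induction d with
  | zero =>
    refine ⟨1, fun u hu => ?_⟩
    intro x
    have h := hu (x⁻¹ * σ x) x
    rw [pow_one]
    simpa [T_apply, C_apply] using h
  | succ e ih =>
    obtain ⟨K, hK⟩ := ih
    refine ⟨K + k, fun u hu => ?_⟩
    rw [mem_P_succ]
    intro n
    have h := engel_step σ k e K hK (K + k) 0 k n (hk n) (by omega) u hu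
    simpa using h

/-- the submodules `P_(d,m)` -/
def Q (σ : MulAut N) (d m : ℕ) : Submodule ℚ (N → ℚ) :=
  P N (d + 1) ⊓ (P N d).comap (T σ ^ m)

theorem mem_Q {σ : MulAut N} {d m : ℕ} {u : N → ℚ} :
    u ∈ Q σ d m ↔ u ∈ P N (d + 1) ∧ (T σ ^ m) u ∈ P N d := Iff.rfl

theorem P_le_Q (σ : MulAut N) (d m : ℕ) {u : N → ℚ} (h : u ∈ P N d) : u ∈ Q σ d m :=
  ⟨P_le_succ d h, Tpow_mem σ m h⟩

theorem C_mem_Q {σ : MulAut N} {d m : ℕ} (j : ℤ) {u : N → ℚ} (h : u ∈ Q σ d m) :
    C (σ ^ j) u ∈ Q σ d m := by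
  refine ⟨C_mem _ h.1, ?_⟩
  have hc : (T σ ^ m) (C (σ ^ j) u) = C (σ ^ j) ((T σ ^ m) u) := by
    have := ((commute_T (Commute.zpow_right (Commute.refl σ) j)).pow_left m).eq
    exact congrArg (fun A : Module.End ℚ (N → ℚ) => A u) this
  show (T σ ^ m) (C (σ ^ j) u) ∈ P N d
  rw [hc]
  exact C_mem _ h.2

theorem shift_mem_Q {σ : MulAut N} {d m : ℕ} {u : N → ℚ} (h : u ∈ Q σ d (m + 1)) (j : ℤ) :
    C (σ ^ j) u - u ∈ Q σ d m := by
  have h1 : T σ u ∈ Q σ d m := by
    refine ⟨T_mem σ h.1, ?_⟩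
    have h2 := h.2
    show (T σ ^ m) (T σ u) ∈ P N d
    have h3 : (T σ ^ (m + 1)) u ∈ P N d := h2
    rwa [pow_succ, Module.End.mul_apply] at h3
  induction j using Int.induction_on with
  | zero =>
    have : C (σ ^ (0 : ℤ)) u - u = 0 := by
      funext x; simp [C_apply]
    rw [this]; exact (Q σ d m).zero_mem
  | succ i ih =>
    have e : C (σ ^ ((i : ℤ) + 1)) u - u = C (σ ^ (i : ℤ)) (T σ u) + (C (σ ^ (i : ℤ)) u - u) := by
      rw [zpow_add, zpow_one, T_apply, map_sub]
      have : C (σ ^ (i : ℤ) * σ) u = C (σ ^ (i : ℤ)) (C σ u) := by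
        have : σ ^ (i : ℤ) * σ = σ * σ ^ (i : ℤ) := by
          rw [← zpow_one_add, ← zpow_add_one, add_comm]
        rw [this, C_mul, Module.End.mul_apply]
      rw [this]; abel
    rw [e]
    exact (Q σ d m).add_mem (C_mem_Q _ h1) ih
  | pred i ih =>
    have e : C (σ ^ (-(i : ℤ) - 1)) u - u =
        -(C (σ ^ (-(i : ℤ) - 1)) (T σ u)) + (C (σ ^ (-(i : ℤ))) u - u) := by
      rw [T_apply, map_sub]
      have : C (σ ^ (-(i : ℤ) - 1)) (C σ u) = C (σ ^ (-(i : ℤ))) u := by
        rw [← Module.End.mul_apply, ← C_mul, ← zpow_one_add]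
        congr 3
        ring
      rw [this]; abel
    rw [e]
    exact (Q σ d m).add_mem ((Q σ d m).neg_mem (C_mem_Q _ h1)) ih

end General

section Ext

variable {G : Type} [Group G] (f : G →* Multiplicative ℤ) (t : G)
  (ht : f t = Multiplicative.ofAdd 1)

include ht in
theorem ker_part (x : G) : t ^ (-(Multiplicative.toAdd (f x))) * x ∈ f.ker := by
  rw [MonoidHom.mem_ker, map_mul, map_zpow, ht]
  apply Multiplicative.toAdd.injective
  simp

/-- the extension `F_u` -/
def F (u : f.ker → ℚ) (x : G) : ℚ := u ⟨t ^ (-(Multiplicative.toAdd (f x))) * x, ker_part f t ht x⟩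

/-- conjugation by `t` -/
def sig : MulAut f.ker := MulAut.conjNormal t⁻¹

theorem sig_zpow (j : ℤ) (n : f.ker) : (((sig f t) ^ j) n : G) = t ^ (-j) * n * t ^ j := by
  rw [sig, ← map_zpow, MulAut.conjNormal_apply]
  simp [zpow_neg]

theorem F_shift (u : f.ker → ℚ) (g x : G) :
    F f t ht u (x * g) - F f t ht u x =
      F f t ht (C ((sig f t) ^ (Multiplicative.toAdd (f g)))
        (dl ⟨t ^ (-(Multiplicative.toAdd (f g))) * g, ker_part f t ht g⟩ u) +
        (C ((sig f t) ^ (Multiplicative.toAdd (f g))) u - u)) x := by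
  simp only [F, Pi.add_apply, Pi.sub_apply, C_apply, dl_apply]
  have : (⟨t ^ (-(Multiplicative.toAdd (f (x * g)))) * (x * g), ker_part f t ht (x * g)⟩ : f.ker) =
      ((sig f t) ^ (Multiplicative.toAdd (f g)))
        ⟨t ^ (-(Multiplicative.toAdd (f x))) * x, ker_part f t ht x⟩ *
      ⟨t ^ (-(Multiplicative.toAdd (f g))) * g, ker_part f t ht g⟩ := by
    apply Subtype.ext
    rw [Subgroup.coe_mul, sig_zpow]
    simp only [map_mul, toAdd_mul, neg_add, zpow_add]
    simp only [zpow_neg]
    group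
  rw [this]
  ring

theorem claimQ (d D0 : ℕ) (h0 : ∀ u ∈ P f.ker d, IsPol D0 (F f t ht u)) (m : ℕ) :
    ∃ D, ∀ u ∈ Q (sig f t) d m, IsPol D (F f t ht u) := by
  induction m with
  | zero =>
    refine ⟨D0, fun u hu => h0 u ?_⟩
    have h := hu.2
    simpa using h
  | succ m ih =>
    obtain ⟨D, hD⟩ := ih
    refine ⟨D + 1, fun u hu g => ?_⟩
    have e := fun x => F_shift f t ht u g x
    rw [show (fun x => F f t ht u (x * g) - F f t ht u x) = _ from funext e]
    apply hD
    refine (Q (sig f t) d m).add_mem ?_ (shift_mem_Q hu _)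
    apply P_le_Q
    apply C_mem
    exact dl_mem hu.1 _

theorem claimP (k : ℕ) (hk : ∀ n : f.ker, (eng (sig f t))^[k] n = 1) (d : ℕ) :
    ∃ D, ∀ u ∈ P f.ker d, IsPol D (F f t ht u) := by
  induction d with
  | zero =>
    refine ⟨0, fun u hu x => ?_⟩
    exact hu _
  | succ d ih =>
    obtain ⟨D0, h0⟩ := ih
    obtain ⟨K, hK⟩ := unip (sig f t) k hk d
    obtain ⟨D, hD⟩ := claimQ f t ht d D0 h0 K
    exact ⟨D, fun u hu => hD u ⟨hu, hK u hu⟩⟩

end Ext

/-- Packet G3. -/
theorem stmtG3 : StmtG3 := by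
  intro k G _ hG f hf d u hu
  obtain ⟨t, ht⟩ := hf (Multiplicative.ofAdd 1)
  have hk : ∀ n : f.ker, (eng (sig f t))^[k] n = 1 := by
    intro n
    have key : ∀ (j : ℕ) (n : f.ker), (((eng (sig f t))^[j] n : f.ker) : G) =
        (fun z : G => z⁻¹ * t⁻¹ * z * t)^[j] (n : G) := by
      intro j
      induction j with
      | zero => intro n; rfl
      | succ j ih =>
        intro n
        rw [Function.iterate_succ_apply, Function.iterate_succ_apply, ih]
        congr 1
        have := sig_zpow f t 1 n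
        rw [zpow_one] at this
        simp only [eng, Subgroup.coe_mul, Subgroup.coe_inv, this]
        group
    apply Subtype.ext
    rw [key, hG n t]
    rfl
  obtain ⟨D, hD⟩ := claimP f t ht k hk d
  refine ⟨D, F f t ht u, hD u hu, fun n => ?_⟩
  unfold F
  congr 1
  apply Subtype.ext
  have hn : f n = 1 := n.2
  simp [hn]

end Pool.Agent.Helper75.Kos
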